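import Mathlib
import Pool.Agent.H24R3.EulRec
import Pool.Agent.R848.SD.Fin

set_option autoImplicit false

namespace Pool.Agent.Results.MP_ab4491_co.DescentSync

/-- The number of descents of the permutation `π` of `{0, ..., n - 1}` in one-line notation: the
number of pairs of consecutive places `(i, i + 1)` with `π (i + 1) < π i`. -/
def descents {n : ℕ} (π : Equiv.Perm (Fin n)) : ℕ :=
  ((Finset.univ : Finset (Fin n × Fin n)).filter
    (fun p => p.2.val = p.1.val + 1 ∧ π p.2 < π p.1)).card

/-- The number of even permutations of `n` letters with exactly `k` descents. -/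
def evenDes (n k : ℕ) : ℕ :=
  ((Finset.univ : Finset (Equiv.Perm (Fin n))).filter
    (fun π => Equiv.Perm.sign π = 1 ∧ descents π = k)).card

/-- The number of odd permutations of `n` letters with exactly `k` descents. -/
def oddDes (n k : ℕ) : ℕ :=
  ((Finset.univ : Finset (Equiv.Perm (Fin n))).filter
    (fun π => Equiv.Perm.sign π = -1 ∧ descents π = k)).card

/-- The sequences `a 0, ..., a N` and `b 0, ..., b N` are strongly synchronised. -/
def StronglySynchronised (a b : ℕ → ℕ) (N : ℕ) : Prop :=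
  ∀ k : ℕ, 1 ≤ k → k + 1 ≤ N →
    max (a (k + 1)) (b (k + 1)) * max (a (k - 1)) (b (k - 1)) ≤ (min (a k) (b k)) ^ 2

open Pool.Agent.H24R3.Eul Pool.Agent.R848.SD

lemma descents_eq {n : ℕ} (σ : Equiv.Perm (Fin (n + 1))) : descents σ = des σ := by
  unfold descents des
  symm
  apply Finset.card_bij (fun i _ => (i.castSucc, i.succ))
  · intro i hi
    simp only [Finset.mem_filter, Finset.mem_univ, true_and] at hi ⊢
    exact ⟨by simp, hi⟩
  · intro i _ j _ hij
    have := (Prod.mk.inj hij).1
    exact Fin.castSucc_injective _ this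
  · rintro ⟨a, b⟩ hab
    simp only [Finset.mem_filter, Finset.mem_univ, true_and] at hab
    obtain ⟨h1, h2⟩ := hab
    have ha : a.val < n := by have := b.2; omega
    refine ⟨⟨a.val, ha⟩, ?_, ?_⟩
    · simp only [Finset.mem_filter, Finset.mem_univ, true_and]
      have e1 : (⟨a.val, ha⟩ : Fin n).succ = b := Fin.ext (by simp [h1])
      have e2 : (⟨a.val, ha⟩ : Fin n).castSucc = a := Fin.ext (by simp)
      rw [e1, e2]; exact h2
    · apply Prod.ext
      · exact Fin.ext (by simp)
      · exact Fin.ext (by simp [h1])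

lemma even_add_odd (n k : ℕ) : (evenDes (n + 1) k : ℤ) + oddDes (n + 1) k = E n k := by
  rw [E_sum]
  unfold evenDes oddDes
  rw [Finset.card_filter, Finset.card_filter]
  push_cast
  rw [← Finset.sum_add_distrib]
  apply Finset.sum_congr rfl
  intro σ _
  rw [descents_eq]
  rcases Int.units_eq_one_or (Equiv.Perm.sign σ) with h | h <;> rw [h] <;> simp

lemma even_sub_odd (n k : ℕ) : (evenDes (n + 1) k : ℤ) - oddDes (n + 1) k = D n k := by
  unfold D
  unfold evenDes oddDes
  rw [Finset.card_filter, Finset.card_filter]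
  push_cast
  rw [← Finset.sum_sub_distrib]
  apply Finset.sum_congr rfl
  intro σ _
  rw [descents_eq]
  rcases Int.units_eq_one_or (Equiv.Perm.sign σ) with h | h
  · rw [h]; simp
  · rw [h]; by_cases h2 : des σ = k <;> simp [h2]

lemma two_max (n k : ℕ) : 2 * ((max (evenDes (n + 1) k) (oddDes (n + 1) k) : ℕ) : ℤ) =
    E n k + |D n k| := by
  rw [← even_add_odd, ← even_sub_odd]
  push_cast
  rcases le_total (evenDes (n + 1) k) (oddDes (n + 1) k) with h | h
  · have h' : (evenDes (n + 1) k : ℤ) ≤ oddDes (n + 1) k := by exact_mod_cast h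
    rw [max_eq_right h', abs_of_nonpos (by linarith)]
    ring
  · have h' : (oddDes (n + 1) k : ℤ) ≤ evenDes (n + 1) k := by exact_mod_cast h
    rw [max_eq_left h', abs_of_nonneg (by linarith)]
    ring

lemma two_min (n k : ℕ) : 2 * ((min (evenDes (n + 1) k) (oddDes (n + 1) k) : ℕ) : ℤ) =
    E n k - |D n k| := by
  rw [← even_add_odd, ← even_sub_odd]
  push_cast
  rcases le_total (evenDes (n + 1) k) (oddDes (n + 1) k) with h | h
  · have h' : (evenDes (n + 1) k : ℤ) ≤ oddDes (n + 1) k := by exact_mod_cast h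
    rw [min_eq_left h', abs_of_nonpos (by linarith)]
    ring
  · have h' : (oddDes (n + 1) k : ℤ) ≤ evenDes (n + 1) k := by exact_mod_cast h
    rw [min_eq_right h', abs_of_nonneg (by linarith)]
    ring

/-- For every positive `n` the numbers of even and of odd permutations of `n` letters with `k`
descents, `0 ≤ k ≤ n - 1`, are strongly synchronised. -/
theorem result : ∀ n : ℕ, 1 ≤ n → StronglySynchronised (evenDes n) (oddDes n) (n - 1) := by
  intro n hn k hk1 hk2
  obtain ⟨m, rfl⟩ : ∃ m, n = m + 1 := ⟨n - 1, by omega⟩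
  obtain ⟨j, rfl⟩ : ∃ j, k = j + 1 := ⟨k - 1, by omega⟩
  have h := main m j (by omega)
  rw [← two_max, ← two_max, ← two_min] at h
  have e1 : j + 1 + 1 = j + 2 := rfl
  have e2 : j + 1 - 1 = j := by omega
  rw [e1, e2]
  have h2 : ((max (evenDes (m + 1) (j + 2)) (oddDes (m + 1) (j + 2)) : ℕ) : ℤ) *
      ((max (evenDes (m + 1) j) (oddDes (m + 1) j) : ℕ) : ℤ) ≤
      ((min (evenDes (m + 1) (j + 1)) (oddDes (m + 1) (j + 1)) : ℕ) : ℤ) ^ 2 := by linarith
  exact_mod_cast h2

end Pool.Agent.Results.MP_ab4491_co.DescentSync
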